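import Pool.Agent.Helper45.AM.GoalsD
import Pool.Agent.Helper45.AM.GoalsA
import Pool.Agent.Helper15.AM.GoalsG

/-!
# Project AM (MP_cc6379_al), packet AM-D2: the modules `I_M^(≤ n)`, multiplication and the bar map
-/

set_option autoImplicit false

open LaurentPolynomial Pool.Agent.Helper15.RA Pool.Agent.Helper45.AM

noncomputable section

namespace Pool.Agent.Helper98.AM

theorem mem_of_repr {ι H H' : Type} [AddCommGroup H] [Module ℤ[T;T⁻¹] H] [AddCommGroup H']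
    [Module ℤ[T;T⁻¹] H'] (b : Module.Basis ι ℤ[T;T⁻¹] H) (f : H →ₗ[ℤ[T;T⁻¹]] H')
    (N : Submodule ℤ[T;T⁻¹] H') (Z : H) (h : ∀ z, b.repr Z z ≠ 0 → f (b z) ∈ N) : f Z ∈ N := by
  rw [← b.linearCombination_repr Z, Finsupp.linearCombination_apply, Finsupp.sum, map_sum]
  refine sum_mem fun z hz => ?_
  rw [map_smul]
  exact N.smul_mem _ (h z (Finsupp.mem_support_iff.1 hz))

section

variable {S W H : Type} [Group W] [Ring H] [Algebra ℤ[T;T⁻¹] H] (X : AC S W H)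

/-- the span of the `c_g`, `g ∈ W_P`, `α g ≥ a` -/
def V (P : Set S) (a : ℕ) : Submodule ℤ[T;T⁻¹] H :=
  Submodule.span ℤ[T;T⁻¹] {Z | ∃ g ∈ par X.cs P, a ≤ X.α g ∧ Z = X.D.c g}

theorem V_left (hS : A_S) {P : Set S} (pg : PG X.D X.h P X.α) {a : ℕ} {l : W} {Z : H}
    (hl : l ∈ par X.cs P) (hZ : Z ∈ V X P a) : X.D.t l * Z ∈ V X P a := by
  obtain ⟨-, -, -, -, h5, h6, -⟩ := hS S W H X.toBase P
  have key : V X P a ≤ (V X P a).comap (LinearMap.mulLeft ℤ[T;T⁻¹] (X.D.t l)) := by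
    refine Submodule.span_le.2 ?_
    rintro _ ⟨g, hg, ha, rfl⟩
    change X.D.t l * X.D.c g ∈ V X P a
    refine mem_of_repr X.b (LinearMap.mulRight ℤ[T;T⁻¹] (X.D.c g)) _ (X.D.t l) fun z hz => ?_
    have hz' := h5 l hl z hz
    change X.b z * X.D.c g ∈ V X P a
    rw [X.hb, X.isH]
    refine Submodule.sum_mem _ fun g' hg' => Submodule.smul_mem _ _ (Submodule.subset_span ?_)
    have h0 := Finsupp.mem_support_iff.1 hg'
    have h1 := h6 z hz' g hg g' h0
    exact ⟨g', h1, ha.trans (pg.p4 z hz' g hg g' h1 h0).2, rfl⟩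
  exact key hZ

theorem V_right (hS : A_S) {P : Set S} (pg : PG X.D X.h P X.α) {a : ℕ} {l : W} {Z : H}
    (hl : l ∈ par X.cs P) (hZ : Z ∈ V X P a) : Z * X.D.t l ∈ V X P a := by
  obtain ⟨-, -, -, -, h5, h6, -⟩ := hS S W H X.toBase P
  have key : V X P a ≤ (V X P a).comap (LinearMap.mulRight ℤ[T;T⁻¹] (X.D.t l)) := by
    refine Submodule.span_le.2 ?_
    rintro _ ⟨g, hg, ha, rfl⟩
    change X.D.c g * X.D.t l ∈ V X P a
    refine mem_of_repr X.b (LinearMap.mulLeft ℤ[T;T⁻¹] (X.D.c g)) _ (X.D.t l) fun z hz => ?_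
    have hz' := h5 l hl z hz
    change X.D.c g * X.b z ∈ V X P a
    rw [X.hb, X.isH]
    refine Submodule.sum_mem _ fun g' hg' => Submodule.smul_mem _ _ (Submodule.subset_span ?_)
    have h0 := Finsupp.mem_support_iff.1 hg'
    have h1 := h6 g hg z hz' g' h0
    exact ⟨g', h1, ha.trans (pg.p4 g hg z hz' g' h1 h0).1, rfl⟩
  exact key hZ

/-- `T_x Z T_y` for `Z` in `V` -/
theorem sand {P : Set S} {a M n : ℕ} {x y : W} {Z : H} (hM : M < a)
    (hx : ∀ g ∈ par X.cs P, X.Adm x g y) (hn : ∀ g ∈ par X.cs P, X.nn x g y ≤ n)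
    (hZ : Z ∈ V X P a) : X.D.t x * Z * X.D.t y ∈ X.Idl M n := by
  have key : V X P a ≤ (X.Idl M n).comap ((LinearMap.mulRight ℤ[T;T⁻¹] (X.D.t y)).comp
      (LinearMap.mulLeft ℤ[T;T⁻¹] (X.D.t x))) := by
    refine Submodule.span_le.2 ?_
    rintro _ ⟨g, hg, ha, rfl⟩
    change X.D.t x * X.D.c g * X.D.t y ∈ X.Idl M n
    exact Submodule.subset_span ⟨x, g, y, hx g hg, hM.trans_le ha, hn g hg, rfl⟩
  exact key hZ

/-- part (1) -/
theorem claim (hA : Pool.Agent.Helper15.AM.G_PA) (hC : Pool.Agent.Helper15.AM.G_PC) (hS : A_S)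
    (hB3 : B_3) {M : ℕ} {g : W} (hg : ∃ b, g ∈ par X.cs (X.F b)) (hM : M < X.α g) (u u' : W) (n : ℕ)
    (hn : X.sl u + X.nn 1 g 1 + X.sl u' ≤ n) : X.D.t u * X.D.c g * X.D.t u' ∈ X.Idl M n := by
  classical
  obtain ⟨b1, b2, b3, b4, b5, b6, b7, b8, b9⟩ := hB3 S W H X
  have hsl1 : X.sl 1 = 0 := (b1 1).2 (one_mem _)
  by_cases hK : g ∈ par X.cs X.K
  · -- `g ∈ W_K`
    obtain ⟨-, a2, a3⟩ := hA S W X.M X.cs X.K
    obtain ⟨-, -, -, c4, c5, -, -⟩ := hC S W X.M X.cs X.K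
    obtain ⟨x, l, hl, hx, rfl⟩ := a2 u
    obtain ⟨l', hl', y, hy, rfl⟩ := c4 u'
    have e1 := X.D.mul x l (a3 x hx l hl)
    have e2 := X.D.mul l' y (c5 y hy l' hl')
    have hV : X.D.t l * X.D.c g * X.D.t l' ∈ V X X.K (X.α g) :=
      V_right X hS X.pgK hl' (V_left X hS X.pgK hl (Submodule.subset_span ⟨g, hK, le_rfl, rfl⟩))
    have e3 : X.D.t (x * l) * X.D.c g * X.D.t (l' * y) =
        X.D.t x * (X.D.t l * X.D.c g * X.D.t l') * X.D.t y := by
      rw [← e1, ← e2]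
      noncomm_ring
    rw [e3]
    refine sand X hM (fun g' hg' => Or.inr ⟨hx, hg', hy⟩) (fun g' hg' => ?_) hV
    have h1 := (b5 x l hl).1
    have h2 := (b5 y l' hl').2
    unfold AC.nn at hn ⊢
    rw [if_pos hg']
    omega
  · obtain ⟨b, hb⟩ := hg
    obtain ⟨-, a2, a3⟩ := hA S W X.M X.cs (X.F b)
    obtain ⟨-, -, -, c4, c5, -, -⟩ := hC S W X.M X.cs (X.F b)
    obtain ⟨x, l, hl, hx, rfl⟩ := a2 u
    obtain ⟨l', hl', y, hy, rfl⟩ := c4 u'
    have e1 := X.D.mul x l (a3 x hx l hl)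
    have e2 := X.D.mul l' y (c5 y hy l' hl')
    have hV : X.D.t l * X.D.c g * X.D.t l' ∈ V X (X.F b) (X.α g) :=
      V_right X hS (X.pg b) hl' (V_left X hS (X.pg b) hl
        (Submodule.subset_span ⟨g, hb, le_rfl, rfl⟩))
    have e3 : X.D.t (x * l) * X.D.c g * X.D.t (l' * y) =
        X.D.t x * (X.D.t l * X.D.c g * X.D.t l') * X.D.t y := by
      rw [← e1, ← e2]
      noncomm_ring
    rw [e3]
    refine sand X hM (fun g' hg' => Or.inl ⟨b, hx, hg', hy⟩) (fun g' hg' => ?_) hV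
    have h1 : X.sl x ≤ X.sl (x * l) := by
      by_cases hlK : l ∈ par X.cs X.K
      · exact (b5 x l hlK).1.ge
      · rw [b8 b x l hx hl hlK]
        omega
    have h2 : X.sl y ≤ X.sl (l' * y) := by
      by_cases hlK : l' ∈ par X.cs X.K
      · exact (b5 y l' hlK).2.ge
      · rw [b9 b y l' hy hl' hlK]
        omega
    unfold AC.nn at hn ⊢
    rw [if_neg hK] at hn
    split_ifs <;> omega

end

theorem h_d_2 : Pool.Agent.Helper15.AM.G_PA → Pool.Agent.Helper15.AM.G_PC → H_2 → A_S → B_1 →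
    B_3 → D_1 → D_2 := by
  intro hA hC hH2 hS hB1 hB3 hD1 S W H _ _ _ X M
  classical
  obtain ⟨d1, d2, -, -, -⟩ := hD1 S W H X
  obtain ⟨bK, -⟩ := hB1 S W H X
  obtain ⟨b1, -⟩ := hB3 S W H X
  obtain ⟨q1, -⟩ := hH2 S W H X.M X.cs X.L X.wt X.D
  have hsl1 : X.sl 1 = 0 := (b1 1).2 (one_mem _)
  have hnn : ∀ x g y, X.nn x g y = X.sl x + X.nn 1 g 1 + X.sl y := by
    intro x g y
    unfold AC.nn
    rw [hsl1]
    omega
  have hAdm : ∀ x g y, X.Adm x g y → ∃ b, g ∈ par X.cs (X.F b) := by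
    rintro x g y (⟨b, -, h, -⟩ | ⟨-, h, -⟩)
    · exact ⟨b, h⟩
    · exact ⟨true, bK true h⟩
  refine ⟨fun g hg hM u u' n hn => claim X hA hC hS hB3 hg hM u u' n hn, ?_, ?_⟩
  · intro n Z hZ w
    constructor
    · have key : X.Idl M n ≤ (X.Idl M (n + X.sl w)).comap
          (LinearMap.mulLeft ℤ[T;T⁻¹] (X.D.t w)) := by
        refine Submodule.span_le.2 ?_
        rintro _ ⟨x, g, y, h1, h2, h3, rfl⟩
        change X.D.t w * X.B x g y ∈ X.Idl M (n + X.sl w)
        have e : X.D.t w * X.B x g y = (X.D.t w * X.D.t x) * (X.D.c g * X.D.t y) := by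
          unfold AC.B
          noncomm_ring
        rw [e]
        refine mem_of_repr X.D.t (LinearMap.mulRight ℤ[T;T⁻¹] (X.D.c g * X.D.t y)) _
          (X.D.t w * X.D.t x) fun z hz => ?_
        change X.D.t z * (X.D.c g * X.D.t y) ∈ X.Idl M (n + X.sl w)
        rw [← mul_assoc]
        refine claim X hA hC hS hB3 (hAdm x g y h1) h2 z y _ ?_
        have := d1 w x z hz
        rw [hnn] at h3
        omega
      exact key hZ
    · have key : X.Idl M n ≤ (X.Idl M (n + X.sl w)).comap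
          (LinearMap.mulRight ℤ[T;T⁻¹] (X.D.t w)) := by
        refine Submodule.span_le.2 ?_
        rintro _ ⟨x, g, y, h1, h2, h3, rfl⟩
        change X.B x g y * X.D.t w ∈ X.Idl M (n + X.sl w)
        have e : X.B x g y * X.D.t w = (X.D.t x * X.D.c g) * (X.D.t y * X.D.t w) := by
          unfold AC.B
          noncomm_ring
        rw [e]
        refine mem_of_repr X.D.t (LinearMap.mulLeft ℤ[T;T⁻¹] (X.D.t x * X.D.c g)) _
          (X.D.t y * X.D.t w) fun z hz => ?_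
        change X.D.t x * X.D.c g * X.D.t z ∈ X.Idl M (n + X.sl w)
        refine claim X hA hC hS hB3 (hAdm x g y h1) h2 x z _ ?_
        have := d1 y w z hz
        rw [hnn] at h3
        omega
      exact key hZ
  · intro n Z hZ
    refine Submodule.span_induction ?_ ?_ ?_ ?_ hZ
    · rintro _ ⟨x, g, y, h1, h2, h3, rfl⟩
      have e : X.D.bar (X.B x g y) = X.D.bar (X.D.t x) * (X.D.c g * X.D.bar (X.D.t y)) := by
        unfold AC.B
        rw [map_mul, map_mul, X.D.bar_c, mul_assoc]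
      rw [e]
      refine mem_of_repr X.D.t (LinearMap.mulRight ℤ[T;T⁻¹] (X.D.c g * X.D.bar (X.D.t y))) _
        (X.D.bar (X.D.t x)) fun u hu => ?_
      change X.D.t u * (X.D.c g * X.D.bar (X.D.t y)) ∈ X.Idl M n
      rw [← mul_assoc]
      refine mem_of_repr X.D.t (LinearMap.mulLeft ℤ[T;T⁻¹] (X.D.t u * X.D.c g)) _
        (X.D.bar (X.D.t y)) fun u' hu' => ?_
      change X.D.t u * X.D.c g * X.D.t u' ∈ X.Idl M n
      refine claim X hA hC hS hB3 (hAdm x g y h1) h2 u u' _ ?_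
      have := d2 x u hu
      have := d2 y u' hu'
      rw [hnn] at h3
      omega
    · rw [map_zero]
      exact zero_mem _
    · intro a b _ _ ha hb
      rw [map_add]
      exact add_mem ha hb
    · intro p a _ ha
      rw [q1]
      exact Submodule.smul_mem _ _ ha

end Pool.Agent.Helper98.AM
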